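import Pool.Agent.Y524G.Main2

/-!
# Induced genus three trisections are not determined by the homotopy class and the framing

Group trisections (Abrams, Gay, Kirby, *Group trisections and smooth 4-manifolds*, Geom. Topol. 22
(2018)) are the algebraic form of trisections of closed oriented smooth 4-manifolds.

A tunnel number one knot `K` in `S¹ × S²` with a tunnel `τ` and a framing is a genus two Heegaard
splitting `H_α ∪ H_β` with `K = a_0` in the surface, `β_1 = b_0`, `β_2 = b_1`: `H_β` is the
standard handlebody and `H_α` is given by a map `f` (the predicate `Splitting`). A change of the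
framing replaces `a_0` by `a_0 b_0^j` (`reframe`). In the construction of the induced genus three
trisection, after the destabilization at the core of the annulus `A`, the surface is the genus two
surface with a tube between the point `K ∩ β_1` and a point of `K`; with the meridian `a_2` of the
tube and the closed up arc `b_2`, the cut systems are `α ∪ {a_2}`, `{b_0, b_1, b_2}` and
`{b_0 a_2⁻¹, b_1, a_0 b_2⁻¹}` (`induced`).

The class of the knot in `π_1(S¹ × S³) = ℤ` is `L a_0`. We show that for every `n` the knots with
class `n` induce, for all framings, at least as many pairwise non-diffeomorphic trisections as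
there are units of `ℤ/n` up to sign; the invariant is the class of the tunnel loop.
-/

namespace Pool.Agent.Results.MP_a0bf10_gt.TunnelClass

open Pool.Agent.Y524F Pool.Agent.Y524G

theorem result :
    (∃ (f f' : FreeGroup (Fin 2 × Bool) →* FreeGroup (Fin 2))
      (L L' : FreeGroup (Fin 2 × Bool) →* FreeGroup (Fin 1)),
      Splitting f L ∧ Splitting f' L' ∧
      L (FreeGroup.of (0, false)) = FreeGroup.of 0 ^ 5 ∧
      L' (FreeGroup.of (0, false)) = FreeGroup.of 0 ^ 5 ∧
      ∀ i j : ℤ, IsTri (induced (f.comp (reframe i))) 1 ∧
        IsTri (induced (f'.comp (reframe j))) 1 ∧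
        ¬ WeakIsoMaps (induced (f.comp (reframe i))) (induced (f'.comp (reframe j)))) ∧
    ∀ n : ℕ, ∃ (f : ℤ → (FreeGroup (Fin 2 × Bool) →* FreeGroup (Fin 2)))
      (L : ℤ → (FreeGroup (Fin 2 × Bool) →* FreeGroup (Fin 1))),
      (∀ m, IsCoprime (n : ℤ) m → Splitting (f m) (L m) ∧
        L m (FreeGroup.of (0, false)) = FreeGroup.of 0 ^ n ∧
        ∀ i, IsTri (induced ((f m).comp (reframe i))) 1) ∧
      ∀ m m', IsCoprime (n : ℤ) m → IsCoprime (n : ℤ) m' → ¬ (n : ℤ) ∣ m - m' →
        ¬ (n : ℤ) ∣ m + m' → ∀ i j,
        ¬ WeakIsoMaps (induced ((f m).comp (reframe i))) (induced ((f m').comp (reframe j))) :=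
  main_both

end Pool.Agent.Results.MP_a0bf10_gt.TunnelClass
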